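import Pool.Agent.Lib.helper31.DC

set_option autoImplicit false

namespace Pool.Agent.Results.MP_890ea4_an.Counterexample

open Filter Topology Real Pool.Agent.H31.ShiftC0 Pool.Agent.H31DC
open scoped ENNReal

/-- the lower `m`-density -/
noncomputable def ld (m : ℕ → ℝ) (A : Set ℕ) : ℝ≥0∞ :=
  liminf (fun n : ℕ => (({j | j ∈ A ∧ 1 ≤ j ∧ (j : ℝ) ≤ m n}.ncard : ℕ) : ℝ≥0∞) / n) atTop

/-- `m`-distributional chaos -/
def DC {E : Type} [NormedAddCommGroup E] [NormedSpace ℝ E] (m : ℕ → ℝ) (T : E →L[ℝ] E) : Prop :=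
  ∃ (S : Set E) (σ : ℝ), ¬ S.Countable ∧ 0 < σ ∧ ∀ ε : ℝ, 0 < ε → ∀ x ∈ S, ∀ y ∈ S, x ≠ y →
    ld m {j | dist ((T ^ j) x) ((T ^ j) y) < σ} = 0 ∧
    ld m {j | ε ≤ dist ((T ^ j) x) ((T ^ j) y)} = 0

/-- some dense linear subspace consists of vectors whose orbits tend to zero -/
def NullDense {E : Type} [NormedAddCommGroup E] [NormedSpace ℝ E] (T : E →L[ℝ] E) : Prop :=
  ∃ X0 : Submodule ℝ E, Dense (X0 : Set E) ∧ ∀ x ∈ X0, Tendsto (fun n => (T ^ n) x) atTop (𝓝 0)

lemma ld_zero {A : Set ℕ} (h : ∀ K : ℕ, ∃ k n q : ℕ, K ≤ k ∧ K ≤ n ∧ k * q ≤ 2 * n ∧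
    ∀ j ∈ A, j ≤ n → j ≤ q) : ld (fun n => n) A = 0 := by
  refine le_antisymm (ge_of_tendsto' (f := fun K : ℕ => (2 : ℝ≥0∞) * (K : ℝ≥0∞)⁻¹) (x := atTop)
    (by simpa using ENNReal.Tendsto.const_mul (a := 2) ENNReal.tendsto_inv_nat_nhds_zero (by simp))
    fun K => liminf_le_of_frequently_le' (frequently_atTop.2 fun N => ?_)) bot_le
  obtain ⟨k, n, q, h1, h2, h3, h4⟩ := h (max K N)
  refine ⟨n, le_of_max_le_right h2, ENNReal.div_le_of_le_mul ?_⟩
  have c1 : {j | j ∈ A ∧ 1 ≤ j ∧ (j : ℝ) ≤ (n : ℝ)}.ncard ≤ q := by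
    refine (Set.ncard_le_ncard (t := Set.Icc 1 q) (fun j hj => ⟨hj.2.1, h4 j hj.1
      (by exact_mod_cast hj.2.2)⟩) (Set.finite_Icc _ _)).trans (by simp)
  have c2 : K * {j | j ∈ A ∧ 1 ≤ j ∧ (j : ℝ) ≤ (n : ℝ)}.ncard ≤ 2 * n :=
    (Nat.mul_le_mul (le_of_max_le_left h1) c1).trans h3
  rcases Nat.eq_zero_or_pos K with rfl | hK
  · rcases Nat.eq_zero_or_pos n with rfl | hn
    · rw [show {j : ℕ | j ∈ A ∧ 1 ≤ j ∧ (j : ℝ) ≤ ((0 : ℕ) : ℝ)} = ∅ from
        Set.eq_empty_of_forall_notMem fun j hj => by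
          have : j ≤ 0 := by exact_mod_cast hj.2.2
          have := hj.2.1
          omega]
      simp
    · simp [hn.ne']
  · rw [mul_right_comm, ← div_eq_mul_inv, ENNReal.le_div_iff_mul_le (by simp [hK.ne']) (by simp),
      mul_comm]
    beta_reduce
    exact_mod_cast c2

theorem result : ∃ (E : Type) (_ : NormedAddCommGroup E) (_ : NormedSpace ℝ E)
    (_ : CompleteSpace E) (T : E →L[ℝ] E) (m : ℕ → ℝ), StrictMono m ∧ (∀ n, 1 ≤ m n) ∧
    (∀ n : ℕ, (n : ℝ) ≤ m n) ∧ NullDense T ∧ DC (fun n => n) T ∧ ¬ DC m T := by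
  refine ⟨X, inferInstance, inferInstance, inferInstance, S, fun n => P n,
    fun _ _ h => Nat.cast_lt.2 (P_mono h), fun n => Nat.one_le_cast.2 (P_pos n),
    fun n => Nat.cast_le.2 P_mono.le_apply, ?_, ?_, ?_⟩
  · refine ⟨⟨⟨⟨{x | ∀ᶠ i in atTop, x i = 0}, fun hx hy => (hx.and hy).mono fun i h => by
      simp [h.1, h.2]⟩, Eventually.of_forall fun _ => rfl⟩, fun r x hx => hx.mono fun i h => by
      simp [h]⟩, Metric.dense_iff.2 fun x ε hε => ?_, fun x hx => ?_⟩
    · obtain ⟨N, hN⟩ := Metric.tendsto_atTop.1 (tends x) (ε / 2) (by positivity)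
      have ev : ∀ᶠ i in atTop, (if i < N then x i else 0) = 0 :=
        (eventually_ge_atTop N).mono fun i h => if_neg (by omega)
      refine ⟨mk (fun i => if i < N then x i else 0) (tendsto_const_nhds.congr' (ev.mono
        fun _ h => h.symm)), ?_, ev⟩
      rw [Metric.mem_ball, dist_eq_norm]
      refine (norm_le _ (C := ε / 2) (by positivity) fun i => ?_).trans_lt (by linarith)
      show |(if i < N then x i else 0) - x i| ≤ _
      split_ifs with h
      · simp; positivity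
      · simpa using (hN i (by omega)).le
    · obtain ⟨N, hN⟩ := eventually_atTop.1 hx
      refine tendsto_const_nhds.congr' ((eventually_ge_atTop N).mono fun n hn => ?_)
      ext i
      rw [S_pow, hN _ (by omega)]; simp
  · have ev : ∀ k, 2 * (P k / 2) = P k := fun k => by
      have : P k = 2 * (4 * hh k * 2 ^ (k + 1) * R k) := by unfold P; ring
      omega
    have z0' : z ≠ 0 := fun e => by
      have := z_big (k := 1) (j := P 1 / 2) (by omega) (by have := ev 1; omega)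
      rw [e, map_zero, norm_zero] at this
      exact (exp_pos _).not_ge this
    refine ⟨Set.range fun t : ℝ => t • z, 1, fun h => Cardinal.not_countable_real ?_, one_pos, ?_⟩
    · simpa using h.preimage_of_injOn (smul_left_injective ℝ z0').injOn
    rintro ε hε _ ⟨s, rfl⟩ _ ⟨t, rfl⟩ hne
    have hd : 0 < |s - t| := abs_pos.2 (sub_ne_zero.2 fun e => hne (by rw [e]))
    have dd : ∀ j : ℕ, dist ((S ^ j) (s • z)) ((S ^ j) (t • z)) = |s - t| * ‖(S ^ j) z‖ :=
      fun j => by
        rw [dist_eq_norm, ← map_sub, show s • z - t • z = (s - t) • z from (sub_smul s t z).symm,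
          map_smul, norm_smul, Real.norm_eq_abs]
    simp only [dd]
    constructor
    · refine ld_zero fun K => ?_
      obtain ⟨k, k1, k2⟩ := ((eventually_ge_atTop K).and ((tendsto_exp_atTop.comp
        tendsto_natCast_atTop_atTop).eventually_ge_atTop (1 / |s - t|))).exists
      have e2 := ev k
      have e3 : k ≤ P k / 2 := by
        have : k + 1 ≤ hh k := by unfold hh; nlinarith [Nat.zero_le (H k), Nat.zero_le (k ^ 2)]
        have : hh k ≤ hh k * (2 ^ (k + 1) * R k) :=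
          Nat.le_mul_of_pos_right _ (by have := R_pos k; positivity)
        have : P k = 8 * (hh k * (2 ^ (k + 1) * R k)) := by unfold P; ring
        omega
      refine ⟨k + 1, P k / 2, P k / (k + 1), by omega, by omega,
        (Nat.mul_div_le _ _).trans e2.ge, fun j hj h => ?_⟩
      by_contra g
      have := z_big (k := k) (j := j) (by omega) (by
        have := (Nat.div_lt_iff_lt_mul (by omega : 0 < k + 1)).1 (not_le.1 g); nlinarith)
      have g2 := (div_le_iff₀' hd).1 (k2.trans this)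
      exact (not_lt.2 g2) hj
    · refine ld_zero fun K => ?_
      obtain ⟨k, k1, k2⟩ := ((eventually_ge_atTop K).and
        (elim.eventually (gt_mem_nhds (div_pos hε hd)))).exists
      have := P_mono.le_apply (x := k)
      have := P_lt k
      refine ⟨k, R (k + 1), P k, k1, by omega, by rw [PR]; nlinarith, fun j hj h => ?_⟩
      by_contra g
      exact (not_lt.2 hj) ((lt_div_iff₀' hd).1 ((z_small (not_le.1 g) h).trans_lt k2))
  · rintro ⟨A, σ, hA, hσ, h⟩
    obtain ⟨x, hx, y, hy, hne⟩ : A.Nontrivial :=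
      Set.not_subsingleton_iff.1 fun e => hA e.countable
    have h0 := (h 1 one_pos x hx y hy hne).1
    obtain ⟨N, hN⟩ := eventually_atTop.1 ((S_lim (x - y)).eventually (gt_mem_nhds hσ))
    suffices H : (2⁻¹ : ℝ≥0∞) ≤
        ld (fun n => (P n : ℝ)) {j | dist ((S ^ j) x) ((S ^ j) y) < σ} by
      rw [h0] at H; simp at H
    refine le_liminf_of_le (by isBoundedDefault)
      ((eventually_ge_atTop (2 * N + 1)).mono fun n hn => ?_)
    beta_reduce
    have c1 : n - N ≤ {j : ℕ | j ∈ {j : ℕ | dist ((S ^ j) x) ((S ^ j) y) < σ} ∧ 1 ≤ j ∧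
        (j : ℝ) ≤ (P n : ℝ)}.ncard := by
      rw [← Nat.card_Ico, ← Set.ncard_coe_finset, ← Set.ncard_image_of_injective _ P_mono.injective]
      refine Set.ncard_le_ncard ?_ ((Set.finite_Iic (P n)).subset fun j hj => by
        exact_mod_cast hj.2.2)
      rintro _ ⟨k, hk, rfl⟩
      have hk := Finset.mem_Ico.1 hk
      exact ⟨by simpa [dist_eq_norm] using hN k hk.1, P_pos k,
        by exact_mod_cast P_mono.monotone hk.2.le⟩
    rw [ENNReal.le_div_iff_mul_le (by simp; omega) (by simp), mul_comm, ← div_eq_mul_inv]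
    refine ENNReal.div_le_of_le_mul ?_
    generalize Set.ncard _ = r at c1 ⊢
    exact_mod_cast (show n ≤ r * 2 by omega)

end Pool.Agent.Results.MP_890ea4_an.Counterexample
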